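import Pool.Agent.MP_ed9623_an.R1.All

open Pool.Agent.MP_ed9623_an.H64 Pool.Agent.MP_ed9623_an.H77 Pool.Agent.MP_ed9623_an.R1
open Filter Topology
open scoped ContDiff

/-- Finitely many linear functionals of the pressure are asymptotically determining for weak
solutions: for all square integrable forces if the boundary is connected, and outside an
exceptional class otherwise. -/
theorem Pool.Agent.Results.MP_ed9623_an.AnyForce.result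
    (ρ : ℝ × ℝ → ℝ) (hρ : ContDiff ℝ ∞ ρ) (hreg : ∀ x, ρ x = 0 → fderiv ℝ ρ x ≠ 0)
    (Ω : Set (ℝ × ℝ)) (hΩ : Ω = {x | ρ x < 0}) (hb : Bornology.IsBounded Ω) (hc : IsConnected Ω)
    (g : Fin 2 → L2 Ω)
    (H : IsPreconnected {x | ρ x = 0} ∨ (∃ x₀, ρ x₀ = 0 ∧ 0 < curvature ρ x₀ ∧
        dcurvature ρ x₀ ≠ 0 ∧ ∀ r : ℝ, 0 < r → ¬ CurlIs Ω g (Ω ∩ Metric.ball x₀ r) 0) ∨
      Circ ρ ∨ (∃ x₀, ρ x₀ = 0 ∧ 0 < curvature ρ x₀ ∧ ¬ Exc ρ Ω g x₀) ∨ ∃ G, CurlIs Ω g Ω G) :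
    ∃ (N : ℕ) (Φ : Fin N → L2 Ω → ℝ), (∀ i, IsBoundedLinearMap ℝ (Φ i)) ∧
      ∀ (u : ℝ → Fin 2 → L2 Ω) (p : ℝ → L2 Ω) (v : ℝ → Fin 2 → L2 Ω) (q : ℝ → L2 Ω),
        Traj Ω g u p → Traj Ω g v q →
        (∀ i, Tendsto (fun t => Φ i (p t) - Φ i (q t)) atTop (𝓝 0)) →
        Tendsto (fun t => ‖u t - v t‖) atTop (𝓝 0) := by
  subst hΩ
  obtain ⟨N, Φ, h⟩ := fin4 (isOpen_lt hρ.continuous continuous_const) hb g
    (aKey hρ hreg hb hc g (H.imp_right (.imp_left fun ⟨x, a, b, c, d⟩ => ⟨x, a, b, c, fun r hr => by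
      by_contra k
      push Not at k
      exact d r hr ⟨analyticOnNhd_const, fun φ hφ => by simpa using k φ hφ⟩⟩)))
  exact ⟨N, fun i => Φ i, fun i => (Φ i).isBoundedLinearMap, h⟩
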