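import Pool.Agent.MP_ed9623_an.E63.All

open Pool.Agent.MP_ed9623_an.H77 Pool.Agent.MP_ed9623_an.E63
open Filter Topology
open scoped ContDiff

/-- For every smooth bounded domain and every square integrable force, finitely many functionals
of the pressure (from any class containing the bounded linear ones) are asymptotically determining
if and only if two equilibria with the same pressure coincide. -/
theorem Pool.Agent.Results.MP_ed9623_an.Equilibria.result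
    (ρ : ℝ × ℝ → ℝ) (hρ : ContDiff ℝ ∞ ρ) (hreg : ∀ x, ρ x = 0 → fderiv ℝ ρ x ≠ 0)
    (Ω : Set (ℝ × ℝ)) (hΩ : Ω = {x | ρ x < 0}) (hb : Bornology.IsBounded Ω) (hc : IsConnected Ω)
    (g : Fin 2 → L2 Ω) (C : Set (L2 Ω → ℝ)) (hC : ∀ Φ, IsBoundedLinearMap ℝ Φ → Φ ∈ C) :
    (∃ (N : ℕ) (Φ : Fin N → L2 Ω → ℝ), (∀ i, Φ i ∈ C) ∧
      ∀ (u : ℝ → Fin 2 → L2 Ω) (p : ℝ → L2 Ω) (v : ℝ → Fin 2 → L2 Ω) (q : ℝ → L2 Ω),
        Traj Ω g u p → Traj Ω g v q →
        (∀ i, Tendsto (fun t => Φ i (p t) - Φ i (q t)) atTop (𝓝 0)) →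
        Tendsto (fun t => ‖u t - v t‖) atTop (𝓝 0)) ↔
    ∀ (u v : Fin 2 → L2 Ω) (p : L2 Ω),
      Traj Ω g (fun _ => u) (fun _ => p) → Traj Ω g (fun _ => v) (fun _ => p) → u = v := by
  subst hΩ
  refine ⟨fun ⟨N, Φ, _, h⟩ u v p hu hv => ?_, fun h => ?_⟩
  · have := h _ _ _ _ hu hv fun i => by simpa only [sub_self] using tendsto_const_nhds
    exact sub_eq_zero.1 (norm_eq_zero.1 (tendsto_nhds_unique tendsto_const_nhds this))
  · obtain ⟨N, Φ, k⟩ := aFin ρ hρ hreg hb hc g h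
    exact ⟨N, fun i => Φ i, fun i => hC _ (Φ i).isBoundedLinearMap, k⟩
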