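import Pool.Agent.MP_ed9623_an.H64.Final5

open Pool.Agent.MP_ed9623_an.H64 MeasureTheory Filter Topology
open scoped ContDiff

/-- Finitely many linear functionals of the pressure are asymptotically determining among
all smooth trajectories, for every smooth force outside an exceptional class. -/
theorem Pool.Agent.Results.MP_ed9623_an.PressureDetermining.result
    (ρ g₁ g₂ : ℝ × ℝ → ℝ) (hρ : ContDiff ℝ ∞ ρ) (hreg : ∀ x, ρ x = 0 → fderiv ℝ ρ x ≠ 0)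
    (hb : Bornology.IsBounded {x | ρ x < 0}) (hc : IsPreconnected {x | ρ x < 0})
    (hg₁ : ContDiff ℝ ∞ g₁) (hg₂ : ContDiff ℝ ∞ g₂)
    (hg : ¬ AnalyticOnNhd ℝ (fun x => pd (1, 0) g₂ x - pd (0, 1) g₁ x) {x | ρ x < 0} →
      ∃ x₀, ρ x₀ = 0 ∧ curvature ρ x₀ ≠ 0 ∧ ∀ L : ℝ,
        Tendsto (fun x => (pd (1, 0) g₂ x - pd (0, 1) g₁ x) / ρ x ^ 6)
          (𝓝[{x | ρ x < 0}] x₀) (𝓝 L) →
        (0 < curvature ρ x₀ → ∀ᶠ y in 𝓝[{x | ρ x < 0}] x₀,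
          AnalyticAt ℝ (fun x => pd (1, 0) g₂ x - pd (0, 1) g₁ x) y) →
        IsPreconnected {x | ρ x = 0} ∧ dcurvature ρ x₀ ≠ 0 ∧ 0 ≤ L * dcurvature ρ x₀) :
    ∃ (N : ℕ) (K : Fin N → ℝ × ℝ → ℝ), (∀ i, MemLp (K i) 2 (volume.restrict {x | ρ x < 0})) ∧
      ∀ u₁ u₂ p v₁ v₂ q : ℝ × ℝ × ℝ → ℝ, SmoothTraj {x | ρ x < 0} g₁ g₂ u₁ u₂ p →
        SmoothTraj {x | ρ x < 0} g₁ g₂ v₁ v₂ q →
        (∀ i, Tendsto (fun t => (∫ x in {x | ρ x < 0}, K i x * p (t, x))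
          - ∫ x in {x | ρ x < 0}, K i x * q (t, x)) atTop (𝓝 0)) →
        Tendsto (fun t => ∫ x in {x | ρ x < 0},
          ((u₁ (t, x) - v₁ (t, x)) ^ 2 + (u₂ (t, x) - v₂ (t, x)) ^ 2)) atTop (𝓝 0) := by
  refine determining5 hρ hreg hb hc hg₁ hg₂ (or_iff_not_imp_left.2 fun h => ?_)
  obtain ⟨x₀, h0, hk, H⟩ := hg h
  refine ⟨x₀, h0, or_iff_not_imp_left.2 fun k => ⟨hk, fun L hL => H L hL fun p => ?_⟩⟩
  by_contra n
  exact k ⟨p, not_eventually.1 n⟩
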