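import Pool.Agent.MP_ed9623_an.H64.Unique2

open Pool.Agent.MP_ed9623_an.H64

/-- Two classical Navier-Stokes solutions with the same pressure gradient on a time interval
coincide, as soon as the curl of the force is nonzero at a curved boundary point. -/
theorem Pool.Agent.Results.MP_ed9623_an.PressureUnique.result
    (ρ g₁ g₂ : ℝ × ℝ → ℝ) (hρ : ContDiff ℝ 6 ρ) (hc : IsPreconnected {x | ρ x < 0})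
    (hg₁ : ContDiff ℝ 1 g₁) (hg₂ : ContDiff ℝ 1 g₂) (x₀ : ℝ × ℝ) (h0 : ρ x₀ = 0)
    (hk : pd (1, 0) (pd (1, 0) ρ) x₀ * pd (0, 1) ρ x₀ ^ 2
      - 2 * pd (1, 0) (pd (0, 1) ρ) x₀ * pd (1, 0) ρ x₀ * pd (0, 1) ρ x₀
      + pd (0, 1) (pd (0, 1) ρ) x₀ * pd (1, 0) ρ x₀ ^ 2 ≠ 0)
    (hg : pd (1, 0) g₂ x₀ - pd (0, 1) g₁ x₀ ≠ 0) (I : Set ℝ) (hI : IsOpen I)
    (u₁ u₂ v₁ v₂ p q : ℝ × ℝ × ℝ → ℝ) (hu₁ : ContDiff ℝ 6 u₁) (hu₂ : ContDiff ℝ 6 u₂)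
    (hv₁ : ContDiff ℝ 6 v₁) (hv₂ : ContDiff ℝ 6 v₂) (hp : ContDiff ℝ 2 p)
    (hu : ∀ t ∈ I, NS {x | ρ x < 0} g₁ g₂ u₁ u₂ p t)
    (hv : ∀ t ∈ I, NS {x | ρ x < 0} g₁ g₂ v₁ v₂ q t)
    (hpq : ∀ t ∈ I, ∀ x, ρ x < 0 → pd (0, 1, 0) p (t, x) = pd (0, 1, 0) q (t, x) ∧
      pd (0, 0, 1) p (t, x) = pd (0, 0, 1) q (t, x)) :
    ∀ t ∈ I, ∀ x, ρ x < 0 → u₁ (t, x) = v₁ (t, x) ∧ u₂ (t, x) = v₂ (t, x) :=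
  unique_of_pressure hρ hc hg₁ hg₂ h0 hk hg hI hu₁ hu₂ hv₁ hv₂ hp hu hv hpq
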